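import Pool.Agent.Helper41.LD3.Defs
import Pool.Agent.Helper52.LD2.GC2

/-!
# Project LD3, block S3: the gain for a finite family of sequences
-/

set_option autoImplicit false

namespace Pool.Agent.Helper52.LD3

open Set MeasureTheory Filter Topology
open Pool.Agent.Helper41.LD (av var ind haar idx DiscLe)
open Pool.Agent.Helper41.LD2
open Pool.Agent.Helper52.LD (mem_idx sum_idx)

/-- the abstract gain -/
theorem gain_abs3 {m K B : ℕ} (hm : 1 ≤ m) (hK : 1 ≤ K) (hmK : m ≤ 2 ^ K) (hB : 1 ≤ B) (g : ℕ × (Σ _ : ℕ, ℕ) → ℝ)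
    (δ : ℕ × (Σ _ : ℕ, ℕ) → ℕ → ℝ) (T : ℕ → ℕ → ℕ → ℕ → ℝ)
    (hT : ∀ s < m, ∀ k < K, ∀ ε : ℕ → ℝ, (∀ i, |ε i| ≤ 1) → ∀ b < B, |∑ i ∈ Finset.range (2 ^ k), ε i * T s k i b| ≤ 1)
    (hc : ∀ p ∈ Finset.range m ×ˢ idx K, ∀ s < m, ∀ k < K, ∀ i < 2 ^ k, |(∑ b ∈ Finset.range B, δ p b * T s k i b) / B -
      (if p.1 = s ∧ p.2.1 = k ∧ p.2.2 = i then (1 / 2) ^ p.2.1 else 0)| ≤ (1 / 2) ^ (4 * K)) :
    1 / (2 * m * K) * (∑ p ∈ Finset.range m ×ˢ idx K, |g p| * (1 / 2) ^ p.2.1) * B ≤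
      ∑ b ∈ Finset.range B, |∑ p ∈ Finset.range m ×ˢ idx K, g p * δ p b| := by
  have hB0 : (0 : ℝ) < B := by exact_mod_cast hB
  have hK0 : (0 : ℝ) < K := by exact_mod_cast hK
  have hm0 : (0 : ℝ) < m := by exact_mod_cast hm
  have hmK' : (m : ℝ) ≤ 2 ^ K := by exact_mod_cast hmK
  set S : ℝ := ∑ b ∈ Finset.range B, |∑ p ∈ Finset.range m ×ˢ idx K, g p * δ p b| with hS
  set G : ℝ := ∑ p ∈ Finset.range m ×ˢ idx K, |g p| * (1 / 2) ^ p.2.1 with hG
  set Ga : ℝ := ∑ p ∈ Finset.range m ×ˢ idx K, |g p| with hGa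
  -- one level
  have level : ∀ s ∈ Finset.range m, ∀ k ∈ Finset.range K,
      B * (∑ i ∈ Finset.range (2 ^ k), |g (s, ⟨k, i⟩)| * (1 / 2) ^ k) -
      B * ((1 / 2) ^ (4 * K) * Ga * 2 ^ k) ≤ S := by
    intro s hs k hk
    rw [Finset.mem_range] at hk hs
    set ε : ℕ → ℝ := fun i => if 0 ≤ g (s, ⟨k, i⟩) then 1 else -1 with hε
    have hε1 : ∀ i, |ε i| ≤ 1 := by
      intro i
      rw [hε]
      dsimp only
      split_ifs <;> simp
    have hεg : ∀ i, g (s, ⟨k, i⟩) * ε i = |g (s, ⟨k, i⟩)| := by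
      intro i
      rw [hε]
      dsimp only
      split_ifs with h
      · rw [mul_one, abs_of_nonneg h]
      · rw [mul_neg, mul_one, abs_of_neg (not_le.1 h)]
    have h1 : ∑ b ∈ Finset.range B, (∑ p ∈ Finset.range m ×ˢ idx K, g p * δ p b) *
        (∑ i ∈ Finset.range (2 ^ k), ε i * T s k i b) ≤ S := by
      rw [hS]
      refine Finset.sum_le_sum fun b hb => ?_
      rw [Finset.mem_range] at hb
      calc (∑ p ∈ Finset.range m ×ˢ idx K, g p * δ p b) * (∑ i ∈ Finset.range (2 ^ k), ε i * T s k i b)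
          ≤ |(∑ p ∈ Finset.range m ×ˢ idx K, g p * δ p b) * (∑ i ∈ Finset.range (2 ^ k), ε i * T s k i b)| := le_abs_self _
        _ = |∑ p ∈ Finset.range m ×ˢ idx K, g p * δ p b| * |∑ i ∈ Finset.range (2 ^ k), ε i * T s k i b| := abs_mul _ _
        _ ≤ |∑ p ∈ Finset.range m ×ˢ idx K, g p * δ p b| * 1 :=
            mul_le_mul_of_nonneg_left (hT s hs k hk ε hε1 b hb) (abs_nonneg _)
        _ = _ := mul_one _
    have h2 : ∑ b ∈ Finset.range B, (∑ p ∈ Finset.range m ×ˢ idx K, g p * δ p b) *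
        (∑ i ∈ Finset.range (2 ^ k), ε i * T s k i b) =
        ∑ p ∈ Finset.range m ×ˢ idx K, ∑ i ∈ Finset.range (2 ^ k),
          B * (g p * ε i * ((∑ b ∈ Finset.range B, δ p b * T s k i b) / B)) := by
      have e1 : ∀ b, (∑ p ∈ Finset.range m ×ˢ idx K, g p * δ p b) * (∑ i ∈ Finset.range (2 ^ k), ε i * T s k i b) =
          ∑ p ∈ Finset.range m ×ˢ idx K, ∑ i ∈ Finset.range (2 ^ k), g p * ε i * (δ p b * T s k i b) := by
        intro b
        rw [Finset.sum_mul_sum]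
        refine Finset.sum_congr rfl fun p _ => Finset.sum_congr rfl fun i _ => ?_
        ring
      rw [Finset.sum_congr rfl fun b _ => e1 b, Finset.sum_comm]
      refine Finset.sum_congr rfl fun p _ => ?_
      rw [Finset.sum_comm]
      refine Finset.sum_congr rfl fun i _ => ?_
      rw [← Finset.mul_sum]
      field_simp
    have h3 : ∑ p ∈ Finset.range m ×ˢ idx K, ∑ i ∈ Finset.range (2 ^ k),
        B * (g p * ε i * (if p.1 = s ∧ p.2.1 = k ∧ p.2.2 = i then (1 / 2 : ℝ) ^ p.2.1 else 0)) =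
        B * (∑ i ∈ Finset.range (2 ^ k), |g (s, ⟨k, i⟩)| * (1 / 2) ^ k) := by
      rw [Finset.sum_comm, Finset.mul_sum]
      refine Finset.sum_congr rfl fun i hi => ?_
      rw [Finset.mem_range] at hi
      have hmem : ((s, ⟨k, i⟩) : ℕ × (Σ _ : ℕ, ℕ)) ∈ Finset.range m ×ˢ idx K :=
        Finset.mem_product.2 ⟨Finset.mem_range.2 hs, mem_idx.2 ⟨hk, hi⟩⟩
      rw [Finset.sum_eq_single_of_mem _ hmem]
      · rw [if_pos ⟨rfl, rfl, rfl⟩, hεg]
      · rintro ⟨s', ⟨k', i'⟩⟩ _ hne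
        rw [if_neg, mul_zero, mul_zero]
        rintro ⟨h3, h4, h5⟩
        dsimp only at h3 h4 h5
        subst h3 h4 h5
        exact hne rfl
    have h4 : ∑ p ∈ Finset.range m ×ˢ idx K, ∑ i ∈ Finset.range (2 ^ k),
          B * (g p * ε i * (if p.1 = s ∧ p.2.1 = k ∧ p.2.2 = i then (1 / 2 : ℝ) ^ p.2.1 else 0)) -
        ∑ p ∈ Finset.range m ×ˢ idx K, ∑ i ∈ Finset.range (2 ^ k),
          B * (g p * ε i * ((∑ b ∈ Finset.range B, δ p b * T s k i b) / B)) ≤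
        B * ((1 / 2) ^ (4 * K) * Ga * 2 ^ k) := by
      rw [← Finset.sum_sub_distrib, hGa, Finset.mul_sum, Finset.sum_mul, Finset.mul_sum]
      refine Finset.sum_le_sum fun p hp => ?_
      rw [← Finset.sum_sub_distrib]
      calc ∑ i ∈ Finset.range (2 ^ k), (B * (g p * ε i * (if p.1 = s ∧ p.2.1 = k ∧ p.2.2 = i then (1 / 2 : ℝ) ^ p.2.1 else 0)) -
            B * (g p * ε i * ((∑ b ∈ Finset.range B, δ p b * T s k i b) / B)))
          ≤ ∑ _i ∈ Finset.range (2 ^ k), B * (|g p| * (1 / 2) ^ (4 * K)) := by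
            refine Finset.sum_le_sum fun i hi => ?_
            rw [Finset.mem_range] at hi
            rw [← mul_sub, ← mul_sub]
            refine mul_le_mul_of_nonneg_left ?_ hB0.le
            have h5 := hc p hp s hs k hk i hi
            rw [abs_sub_comm] at h5
            calc g p * ε i * ((if p.1 = s ∧ p.2.1 = k ∧ p.2.2 = i then (1 / 2 : ℝ) ^ p.2.1 else 0) -
                  (∑ b ∈ Finset.range B, δ p b * T s k i b) / B)
                ≤ |g p * ε i * ((if p.1 = s ∧ p.2.1 = k ∧ p.2.2 = i then (1 / 2 : ℝ) ^ p.2.1 else 0) -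
                  (∑ b ∈ Finset.range B, δ p b * T s k i b) / B)| := le_abs_self _
              _ = |g p| * |ε i| * |(if p.1 = s ∧ p.2.1 = k ∧ p.2.2 = i then (1 / 2 : ℝ) ^ p.2.1 else 0) -
                  (∑ b ∈ Finset.range B, δ p b * T s k i b) / B| := by
                  rw [abs_mul, abs_mul]
              _ ≤ |g p| * 1 * (1 / 2) ^ (4 * K) := by
                  refine mul_le_mul (mul_le_mul_of_nonneg_left (hε1 i) (abs_nonneg _)) h5 (abs_nonneg _) ?_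
                  rw [mul_one]; exact abs_nonneg _
              _ = |g p| * (1 / 2) ^ (4 * K) := by ring
        _ = B * ((1 / 2) ^ (4 * K) * |g p| * 2 ^ k) := by
            rw [Finset.sum_const, Finset.card_range, nsmul_eq_mul]
            push_cast
            ring
    rw [h2] at h1
    linarith
  have hsum : ∑ s ∈ Finset.range m, ∑ k ∈ Finset.range K, (B * (∑ i ∈ Finset.range (2 ^ k), |g (s, ⟨k, i⟩)| * (1 / 2) ^ k) -
      B * ((1 / 2) ^ (4 * K) * Ga * 2 ^ k)) ≤ m * (K * S) := by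
    have h5 : ∀ s ∈ Finset.range m, ∑ k ∈ Finset.range K, (B * (∑ i ∈ Finset.range (2 ^ k), |g (s, ⟨k, i⟩)| * (1 / 2) ^ k) -
      B * ((1 / 2) ^ (4 * K) * Ga * 2 ^ k)) ≤ K * S := by
      intro s hs
      have := Finset.sum_le_sum (level s hs)
      rwa [Finset.sum_const, Finset.card_range, nsmul_eq_mul] at this
    have := Finset.sum_le_sum h5
    rwa [Finset.sum_const, Finset.card_range, nsmul_eq_mul] at this
  have e1 : ∑ s ∈ Finset.range m, ∑ k ∈ Finset.range K, (B * (∑ i ∈ Finset.range (2 ^ k), |g (s, ⟨k, i⟩)| * (1 / 2) ^ k) -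
      B * ((1 / 2) ^ (4 * K) * Ga * 2 ^ k)) = B * G - m * (B * ((1 / 2) ^ (4 * K) * Ga * ∑ k ∈ Finset.range K, (2 : ℝ) ^ k)) := by
    have h6 : ∀ s ∈ Finset.range m, ∑ k ∈ Finset.range K, (B * (∑ i ∈ Finset.range (2 ^ k), |g (s, ⟨k, i⟩)| * (1 / 2) ^ k) -
        B * ((1 / 2) ^ (4 * K) * Ga * 2 ^ k)) =
        B * (∑ p ∈ idx K, |g (s, p)| * (1 / 2) ^ p.1) - B * ((1 / 2) ^ (4 * K) * Ga * ∑ k ∈ Finset.range K, (2 : ℝ) ^ k) := by
      intro s _
      rw [Finset.sum_sub_distrib]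
      congr 1
      · rw [sum_idx, Finset.mul_sum]
      · rw [← Finset.mul_sum, ← Finset.mul_sum]
    rw [Finset.sum_congr rfl h6, Finset.sum_sub_distrib, Finset.sum_const, Finset.card_range, nsmul_eq_mul, ← Finset.mul_sum,
      hG, Finset.sum_product]
  have hgeo : ∑ k ∈ Finset.range K, (2 : ℝ) ^ k ≤ 2 ^ K := by
    rw [geom_sum_eq (by norm_num)]
    have : (0 : ℝ) < 2 ^ K := by positivity
    norm_num
  have hgeo0 : 0 ≤ ∑ k ∈ Finset.range K, (2 : ℝ) ^ k := Finset.sum_nonneg fun k _ => by positivity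
  have hGa0 : 0 ≤ Ga := Finset.sum_nonneg fun p _ => abs_nonneg _
  have hG0 : 0 ≤ G := Finset.sum_nonneg fun p _ => by positivity
  have hGaG : Ga ≤ 2 ^ K * G := by
    rw [hGa, hG, Finset.mul_sum]
    refine Finset.sum_le_sum fun p hp => ?_
    have hp1 := (mem_idx.1 (Finset.mem_product.1 hp).2).1
    have h6 : (1 : ℝ) ≤ 2 ^ K * (1 / 2) ^ p.2.1 := by
      rw [one_div, inv_pow, ← div_eq_mul_inv, one_le_div (by positivity)]
      exact pow_le_pow_right₀ (by norm_num) hp1.le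
    calc |g p| = |g p| * 1 := (mul_one _).symm
      _ ≤ |g p| * (2 ^ K * (1 / 2) ^ p.2.1) := mul_le_mul_of_nonneg_left h6 (abs_nonneg _)
      _ = _ := by ring
  have hsmall : (m : ℝ) * ((1 / 2 : ℝ) ^ (4 * K) * Ga * ∑ k ∈ Finset.range K, (2 : ℝ) ^ k) ≤ 1 / 2 * G := by
    calc (m : ℝ) * ((1 / 2 : ℝ) ^ (4 * K) * Ga * ∑ k ∈ Finset.range K, (2 : ℝ) ^ k)
        ≤ 2 ^ K * ((1 / 2 : ℝ) ^ (4 * K) * (2 ^ K * G) * 2 ^ K) := by
          refine mul_le_mul hmK' ?_ (by positivity) (by positivity)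
          exact mul_le_mul (mul_le_mul_of_nonneg_left hGaG (by positivity)) hgeo hgeo0 (by positivity)
      _ = (1 / 2 : ℝ) ^ K * G := by
          have h8 : (1 / 2 : ℝ) ^ (4 * K) = (1 / 2) ^ K * ((1 / 2) ^ K * (1 / 2) ^ K * (1 / 2) ^ K) := by
            rw [← pow_add, ← pow_add, ← pow_add]; congr 1; ring
          rw [h8]
          have h7 : (1 / 2 : ℝ) ^ K * 2 ^ K = 1 := by rw [← mul_pow]; norm_num
          calc (2 : ℝ) ^ K * ((1 / 2 : ℝ) ^ K * ((1 / 2) ^ K * (1 / 2) ^ K * (1 / 2) ^ K) * (2 ^ K * G) * 2 ^ K)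
              = (1 / 2 : ℝ) ^ K * G * ((1 / 2) ^ K * 2 ^ K) * ((1 / 2) ^ K * 2 ^ K) * ((1 / 2) ^ K * 2 ^ K) := by ring
            _ = _ := by rw [h7]; ring
      _ ≤ 1 / 2 * G := by
          refine mul_le_mul_of_nonneg_right ?_ hG0
          calc (1 / 2 : ℝ) ^ K ≤ (1 / 2) ^ 1 := pow_le_pow_of_le_one (by norm_num) (by norm_num) hK
            _ = 1 / 2 := pow_one _
  have hfin : B * (1 / 2 * G) ≤ m * (K * S) := by
    have := mul_le_mul_of_nonneg_left hsmall hB0.le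
    linarith
  calc 1 / (2 * m * K) * G * B = (B * (1 / 2 * G)) / (m * K) := by field_simp
    _ ≤ (m * (K * S)) / (m * K) := div_le_div_of_nonneg_right hfin (by positivity)
    _ = S := by field_simp

theorem gain3 {m K B : ℕ} (hm : 1 ≤ m) (hK : 1 ≤ K) (hmK : m ≤ 2 ^ K) {U : ℕ → ℕ → ℝ → ℝ} (hU : ∀ s j, Measurable (U s j)) {a ℓ : ℝ} (hℓ : 0 < ℓ)
    (hB : 1 ≤ B) (t : ℕ → ℕ)
    (hPC : ∀ s < m, ∀ s' < m, ∀ k < K, ∀ i < 2 ^ k, ∀ k' < K, ∀ i' < 2 ^ k',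
      |(∑ b ∈ Finset.range B, (M (U s) k i (a + b * (ℓ / B)) (ℓ / B) - M (U s) k i a ℓ) * A (U s') k' i' (t s') (a + b * (ℓ / B)) (ℓ / B)) / B -
        (if s = s' ∧ k = k' ∧ i = i' then (1 / 2) ^ k else 0)| ≤ (1 / 2) ^ (4 * K)) (g : ℕ × (Σ _ : ℕ, ℕ) → ℝ) :
    1 / (2 * m * K) * (∑ p ∈ Finset.range m ×ˢ idx K, |g p| * (1 / 2) ^ p.2.1) * B ≤
      ∑ b ∈ Finset.range B, |∑ p ∈ Finset.range m ×ˢ idx K, g p * (M (U p.1) p.2.1 p.2.2 (a + b * (ℓ / B)) (ℓ / B) - M (U p.1) p.2.1 p.2.2 a ℓ)| := by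
  have hℓB : 0 < ℓ / B := div_pos hℓ (by exact_mod_cast hB)
  refine gain_abs3 hm hK hmK hB g (fun p b => M (U p.1) p.2.1 p.2.2 (a + b * (ℓ / B)) (ℓ / B) - M (U p.1) p.2.1 p.2.2 a ℓ)
    (fun s k i b => A (U s) k i (t s) (a + b * (ℓ / B)) (ℓ / B)) ?_ ?_
  · intro s _ k _ ε' hε' b _
    exact Helper52.LD2.A_sum_le (hU s) k (t s) ε' hε' (2 ^ k) _ hℓB
  · intro p hp s hs k hk i hi
    obtain ⟨h1, h2⟩ := Finset.mem_product.1 hp
    rw [Finset.mem_range] at h1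
    exact hPC p.1 h1 s hs p.2.1 (mem_idx.1 h2).1 p.2.2 (mem_idx.1 h2).2 k hk i hi

end Pool.Agent.Helper52.LD3
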